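import Pool.Agent.H83.AR.Targets3
import Pool.Agent.H4.BR.Kzi


/-!
GC: `GM` and averages in the inert block.
-/

set_option autoImplicit false

namespace Pool.Agent.H73.BR

open MeasureTheory Set
open Pool.Agent.H83.AR Pool.Agent.H93.AR Pool.Agent.H83.LS Pool.Agent.H54.LS Pool.Agent.H14.LS

open scoped ENNReal NNReal

theorem gc_comp {n : ℕ} {F : EE n × EE n → ℝ} (h : Measurable F) (v : EE n) :
    Measurable fun p : Sp n => F (v, (p : EE n)) :=
  h.comp (measurable_const.prodMk measurable_subtype_coe)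

theorem gc_zk_meas {n : ℕ} {L : ℝ} (h : Measurable fun q : EE n × EE n => zk n L q.1 q.2)
    (v : EE n) : Measurable fun p : Sp n => zk n L v (p : EE n) := gc_comp h v

theorem gc_zk_int (hZB : T_ZB) (hZN : T_ZN) (a : ℕ) (L : ℝ) (u : EE a) (ha : 1 ≤ a) (hL : 1 ≤ L)
    (hu : u = 0 ∨ ‖u‖ = 1) : Integrable (fun w : Sp a => zk a L u (w : EE a)) (sg a) := by
  obtain ⟨C, hC⟩ := hZB a ha
  obtain ⟨hm, -, h0, -⟩ := hC L hL
  have hm2 : Measurable fun w : Sp a => zk a L u (w : EE a) := gc_zk_meas hm u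
  refine ⟨hm2.aestronglyMeasurable, ?_⟩
  rw [hasFiniteIntegral_iff_ofReal (Filter.Eventually.of_forall fun w => h0 _ _),
    hZN a L u ha hL hu]
  exact ENNReal.one_lt_top

theorem pf_gc (hKW : T_KW) (hZB : T_ZB) (hZN : T_ZN) (hJM : T_JM) : T_GC := by
  intro a b L Lam L' B f v X ha hb hL hL' hLam hf hs
  obtain ⟨hfm, hfB, R, hfR⟩ := hf
  obtain ⟨hp, -, -, hn2, hjc, -⟩ := hJM a b
  have hb1 : 1 ≤ b := by omega
  obtain ⟨Mz, hMz, hZ⟩ := Pool.Agent.H4.BR.zk_of hZB b hb1 L hL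
  obtain ⟨C, hC, hD, -⟩ := Pool.Agent.H4.BR.dec_both hKW b hb L Lam hL hLam
  obtain ⟨C', hC', hk⟩ := Pool.Agent.H4.BR.kzc_dom hD hC hLam R
  have hb2 : (2 : ℝ) ≤ b := by exact_mod_cast hb
  have hB0 : 0 ≤ B := (norm_nonneg _).trans (hfB 0)
  have hbe : 0 ≤ ((b : ℝ) - 1) / 2 := by linarith
  obtain ⟨y, hy⟩ : ∃ y : EE a, y = pr X := ⟨_, rfl⟩
  obtain ⟨s, hsX⟩ : ∃ s : ℝ, s = X (Fin.last a) := ⟨_, rfl⟩
  obtain ⟨K, hK⟩ : ∃ K : ℝ × Sp b → ℂ, K = fun q =>
      Pool.Agent.H4.BR.kzc b L chi Lam (v : EE b) (q.2 : EE b) s q.1 := ⟨_, rfl⟩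
  obtain ⟨z, hz⟩ : ∃ z : Sp a → ℝ, z = fun (u : Sp a) => zk a L' (‖y‖⁻¹ • y) (u : EE a) := ⟨_, rfl⟩
  obtain ⟨F, hF⟩ : ∃ F : (ℝ × Sp b) × Sp a → ℂ, F = fun q =>
      ((q.1.1 ^ (((b : ℝ) - 1) / 2) : ℝ) : ℂ) *
        f (jm a b (‖y‖ • (q.2 : EE a)) (q.1.1 • (q.1.2 : EE b))) := ⟨_, rfl⟩
  have hu : ‖y‖⁻¹ • y = 0 ∨ ‖‖y‖⁻¹ • y‖ = 1 := by
    by_cases h : y = 0
    · left; rw [h, smul_zero]
    · right
      rw [norm_smul, norm_inv, norm_norm, inv_mul_cancel₀ (norm_ne_zero_iff.mpr h)]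
  have hzi : Integrable z (sg a) := by
    rw [hz]; exact gc_zk_int hZB hZN a L' _ ha hL' hu
  have hz0 : ∀ u, 0 ≤ z u := by
    intro u
    rw [hz]
    obtain ⟨C1, hC1⟩ := hZB a ha
    exact (hC1 L' hL').2.2.1 _ _
  have hKm : Measurable K := by
    rw [hK]
    exact (Pool.Agent.H4.BR.kzc_meas hZ chi Pool.Agent.H83.LS.H27.continuous_chi Lam (v : EE b)).comp
      (f := fun q : ℝ × Sp b => (((q.2 : EE b), q.1), s))
      (((measurable_subtype_coe.comp measurable_snd).prodMk measurable_fst).prodMk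
        measurable_const)
  have hFm : Measurable F := by
    rw [hF]
    apply Measurable.mul
    · exact Complex.measurable_ofReal.comp
        ((measurable_fst.comp measurable_fst).pow_const _)
    · refine hfm.comp ?_
      have h1 : Continuous fun q : (ℝ × Sp b) × Sp a =>
          ((‖y‖ • (q.2 : EE a), q.1.1 • (q.1.2 : EE b)) : EE a × EE b) := by fun_prop
      exact (hjc.comp h1).measurable
  have hFb : ∀ q : (ℝ × Sp b) × Sp a, 0 < q.1.1 → ‖K q.1 * F q‖ ≤
      (Ioc (0 : ℝ) R).indicator (fun _ => C' * (|R| ^ (((b : ℝ) - 1) / 2) * B)) q.1.1 := by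
    intro q hq
    by_cases h0 : f (jm a b (‖y‖ • (q.2 : EE a)) (q.1.1 • (q.1.2 : EE b))) = 0
    · rw [hF]
      simp only [h0, mul_zero, norm_zero]
      apply indicator_nonneg
      intro _ _
      positivity
    · have h1 := hs _ h0
      rw [(hp _ _).2, norm_smul, Pool.Agent.H4.BR.norm_Sp, mul_one, Real.norm_eq_abs,
        abs_of_pos hq] at h1
      have h2 : q.1.1 ≤ R := by
        by_contra hc
        push Not at hc
        apply h0
        apply hfR
        have h3 := hn2 (jm a b (‖y‖ • (q.2 : EE a)) (q.1.1 • (q.1.2 : EE b)))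
        rw [(hp _ _).2, norm_smul, Pool.Agent.H4.BR.norm_Sp, mul_one, Real.norm_eq_abs,
          abs_of_pos hq] at h3
        have h4 : q.1.1 ≤ ‖jm a b (‖y‖ • (q.2 : EE a)) (q.1.1 • (q.1.2 : EE b))‖ := by
          apply le_of_sq_le_sq _ (norm_nonneg _)
          rw [h3]
          have := sq_nonneg ‖p1 a b (jm a b (‖y‖ • (q.2 : EE a)) (q.1.1 • (q.1.2 : EE b)))‖
          linarith
        linarith
      rw [indicator_of_mem (show q.1.1 ∈ Ioc (0 : ℝ) R from ⟨hq, h2⟩), norm_mul]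
      have h5 : ‖K q.1‖ ≤ C' := by
        rw [hK]
        refine (hk s q.1.1 v q.1.2 h1 hq.le h2).trans ?_
        refine mul_le_of_le_one_right hC' ?_
        apply inv_le_one_of_one_le₀
        apply one_le_pow₀
        have := abs_nonneg s
        linarith
      refine mul_le_mul h5 ?_ (norm_nonneg _) hC'
      rw [hF]
      simp only
      rw [norm_mul, Complex.norm_real, Real.norm_eq_abs,
        abs_of_nonneg (Real.rpow_nonneg hq.le _)]
      refine mul_le_mul ?_ (hfB _) (norm_nonneg _) (Real.rpow_nonneg (abs_nonneg _) _)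
      exact Real.rpow_le_rpow hq.le (h2.trans (le_abs_self _)) hbe
  obtain ⟨ν, hν⟩ : ∃ ν : Measure ℝ, ν = volume.restrict (Ioi (0 : ℝ)) := ⟨_, rfl⟩
  have : SFinite ν := by rw [hν]; infer_instance
  have hae : ∀ᵐ q : ℝ × Sp b ∂(ν.prod (sg b)), 0 < q.1 := by
    have h1 : ∀ᵐ x : ℝ ∂ν, 0 < x := by
      rw [hν]
      exact ae_restrict_mem measurableSet_Ioi
    exact (Measure.quasiMeasurePreserving_fst (μ := ν) (ν := sg b)).ae h1
  have hind : Integrable (fun q : ℝ × Sp b => (Ioc (0 : ℝ) R).indicator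
      (fun _ => C' * (|R| ^ (((b : ℝ) - 1) / 2) * B)) q.1) (ν.prod (sg b)) := by
    have h1 : Integrable ((Ioc (0 : ℝ) R).indicator
      (fun _ => C' * (|R| ^ (((b : ℝ) - 1) / 2) * B))) ν := by
      rw [integrable_indicator_iff measurableSet_Ioc]
      refine integrableOn_const ?_ ?_
      · rw [hν]
        refine ne_top_of_le_ne_top ?_ (Measure.restrict_apply_le _ _)
        rw [Real.volume_Ioc]
        exact ENNReal.ofReal_ne_top
      · exact enorm_ne_top
    have h2 := h1.comp_fst (sg b)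
    exact h2
  -- integrability of each slice
  have hsl : ∀ u : Sp a, Integrable (fun q : ℝ × Sp b => K q * F (q, u)) (ν.prod (sg b)) := by
    intro u
    refine hind.mono' ?_ ?_
    · exact (hKm.mul (hFm.comp (measurable_id.prodMk measurable_const))).aestronglyMeasurable
    · filter_upwards [hae] with q hq
      exact hFb (q, u) hq
  have htot : Integrable (fun p : (ℝ × Sp b) × Sp a => ((z p.2 : ℝ) : ℂ) * (K p.1 * F p))
      ((ν.prod (sg b)).prod (sg a)) := by
    have h1 := hind.mul_prod hzi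
    refine h1.mono' ?_ ?_
    · apply Measurable.aestronglyMeasurable
      refine Measurable.mul ?_ ((hKm.comp measurable_fst).mul hFm)
      obtain ⟨C1, hC1⟩ := hZB a ha
      have hm := (hC1 L' hL').1
      have hm2 : Measurable z := by
        rw [hz]
        exact gc_zk_meas hm _
      exact Complex.measurable_ofReal.comp (hm2.comp measurable_snd)
    · have h3 : ∀ᵐ p : (ℝ × Sp b) × Sp a ∂((ν.prod (sg b)).prod (sg a)), 0 < p.1.1 :=
        (Measure.quasiMeasurePreserving_fst (μ := ν.prod (sg b)) (ν := sg a)).ae hae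
      filter_upwards [h3] with p hp'
      rw [norm_mul, Complex.norm_real, Real.norm_eq_abs, abs_of_nonneg (hz0 _), mul_comm]
      exact mul_le_mul_of_nonneg_right (hFb p hp') (hz0 _)
  -- left side
  have hl : GM a b L Lam (A1 a b L' f) v X =
      ∫ q : ℝ × Sp b, ∫ u : Sp a, ((z u : ℝ) : ℂ) * (K q * F (q, u)) ∂(sg a)
        ∂(ν.prod (sg b)) := by
    rw [integral_prod _ htot.integral_prod_left]
    unfold GM
    rw [hν]
    refine setIntegral_congr_fun measurableSet_Ioi fun ρ hρ => ?_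
    have hρ' : 0 < ρ := hρ
    refine integral_congr_ae (Filter.Eventually.of_forall fun w => ?_)
    simp only
    have h1 : A1 a b L' f (jm a b (pr X) (ρ • (w : EE b))) =
        ∫ u : Sp a, ((z u : ℝ) : ℂ) *
          f (jm a b (‖y‖ • (u : EE a)) (ρ • (w : EE b))) ∂(sg a) := by
      unfold A1
      rw [(hp _ _).1, (hp _ _).2, hz, hy]
    rw [h1, ← hsX]
    rw [Pool.Agent.H4.BR.kzc_eq b L chi Pool.Agent.H83.LS.H27.hchi Lam hLam (v : EE b) (w : EE b) s ρ
      hρ'.le]
    rw [← integral_const_mul, ← integral_const_mul]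
    refine integral_congr_ae (Filter.Eventually.of_forall fun u => ?_)
    simp only [hK, hF]
    ring
  rw [hl, integral_integral_swap htot]
  unfold AL
  have hr : (hor X)⁻¹ • pr X = ‖y‖⁻¹ • y := by rw [Pool.Agent.H54.LS.hor_eq, hy]
  rw [hr]
  refine integral_congr_ae (Filter.Eventually.of_forall fun u => ?_)
  simp only
  rw [integral_const_mul]
  have hz' : zk a L' (‖y‖⁻¹ • y) (u : EE a) = z u := by rw [hz]
  rw [hz']
  congr 1
  rw [integral_prod _ (hsl u)]
  unfold GM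
  rw [hν]
  refine setIntegral_congr_fun measurableSet_Ioi fun ρ hρ => ?_
  have hρ' : 0 < ρ := hρ
  refine integral_congr_ae (Filter.Eventually.of_forall fun w => ?_)
  simp only
  rw [jo_last, pr_jo, ← hsX,
    Pool.Agent.H4.BR.kzc_eq b L chi Pool.Agent.H83.LS.H27.hchi Lam hLam (v : EE b) (w : EE b) s ρ
      hρ'.le, Pool.Agent.H54.LS.hor_eq, ← hy]
  simp only [hK, hF]

end Pool.Agent.H73.BR
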