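import Pool.Agent.H83.AR.Targets3
import Pool.Agent.H93.AR.TargetsE

/-!
JB: the splitting of `ℝ^(a+b)` (from `T_JM`), and AS: the average in the first block is the
average in the second block after the exchange of the blocks.
-/

set_option autoImplicit false

namespace Pool.Agent.H73.BR

open MeasureTheory Set FourierTransform Pool.Agent.H83.LS Pool.Agent.H54.LS Pool.Agent.H83.AR
  Pool.Agent.H84.BR
open scoped ENNReal NNReal SchwartzMap

theorem pf_jb (hJM : Pool.Agent.H83.AR.T_JM) : Pool.Agent.H93.AR.T_JB := by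
  intro a b
  obtain ⟨h1, h2, h3, -, h5, h6, h7, -, h9, -, -, h12, h13, -⟩ := hJM a b
  exact ⟨h9, h5, h6, h7, h1, h2, h3, h12, fun x => (h13 x).1, fun x => (h13 x).2.2⟩

theorem pf_as (hJB : Pool.Agent.H93.AR.T_JB) : Pool.Agent.H93.AR.T_AS := by
  intro a b L f x
  obtain ⟨-, -, -, -, hp, hj, -, -, hs, hps⟩ := hJB a b
  obtain ⟨-, -, -, -, hp', hj', -, -, hs', hps'⟩ := hJB b a
  unfold A1 A2
  rw [(hps x).1, (hps x).2]
  refine integral_congr_ae (Filter.Eventually.of_forall fun w => ?_)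
  show _ * _ = _ * _
  congr 2
  unfold sw
  rw [(hp' _ _).1, (hp' _ _).2]

end Pool.Agent.H73.BR
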