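import Pool.Agent.H84.B2.Targets

/-!
KF: the kernel of `m2` at large distance in the second block.
-/

set_option autoImplicit false

namespace Pool.Agent.H73.BR

open MeasureTheory Set FourierTransform
open Pool.Agent.H83.AR Pool.Agent.H93.AR Pool.Agent.H83.LS Pool.Agent.H54.LS Pool.Agent.H14.LS
open Pool.Agent.H84.B2
open scoped ENNReal NNReal

theorem kf_chi_supp {s : ℝ} (h : 2 ≤ s) : chi s = 0 := by
  unfold chi eta0
  rw [Real.smoothTransition.zero_of_nonpos (by linarith),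
    Real.smoothTransition.zero_of_nonpos (by linarith), sub_self]

theorem kf_eta {s : ℝ} (h : s ≤ 1) : eta0 s = 1 := by
  unfold eta0
  exact Real.smoothTransition.one_of_one_le (by linarith)

theorem kf_symbol (hJM : T_JM) (a b : ℕ) (lam Lam t : ℝ) (hlam : 0 < lam) :
    m2 a b lam Lam t = mc a b (fun s => eta0 (s / (4 * lam))) (fun s => chi (s / Lam)) lam t := by
  funext ξ
  unfold m2 mc
  by_cases h : 2 ≤ ‖ξ‖ / lam
  · have : mT lam t ξ = 0 := by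
      unfold mT
      rw [kf_chi_supp h]
      simp
    rw [this, zero_mul, zero_mul]
  · push Not at h
    obtain ⟨-, -, -, hn, -⟩ := hJM a b
    have h1 : ‖p1 a b ξ‖ ≤ ‖ξ‖ := by
      apply le_of_sq_le_sq _ (norm_nonneg _)
      rw [hn ξ]
      have := sq_nonneg ‖p2 a b ξ‖
      linarith
    have h2 : ‖p1 a b ξ‖ / (4 * lam) ≤ 1 := by
      rw [div_le_one (by positivity)]
      rw [div_lt_iff₀ hlam] at h
      linarith
    show _ = mT lam t ξ * ((eta0 (‖p1 a b ξ‖ / (4 * lam)) * chi (‖p2 a b ξ‖ / Lam) : ℝ) : ℂ)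
    rw [kf_eta h2, one_mul]

theorem pf_kf (hK : T_KPC) (hJM : T_JM) : T_KF := by
  intro a b N η ha hb hη
  obtain ⟨q, hq⟩ : ∃ q : ℝ, q = ((a : ℝ) + b + 1) / 2 := ⟨_, rfl⟩
  have hq0 : 0 ≤ q := by rw [hq]; positivity
  obtain ⟨M₀, hM₀⟩ := exists_nat_ge (((N : ℝ) + q) / η)
  obtain ⟨M, hM⟩ : ∃ M : ℕ, M = M₀ + (a + b + 1) := ⟨_, rfl⟩
  have hM1 : (N : ℝ) + q ≤ η * M := by
    rw [div_le_iff₀ hη] at hM₀
    have : (M₀ : ℝ) ≤ M := by rw [hM]; push_cast; linarith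
    nlinarith
  have hM2 : ((a + b : ℕ) : ℝ) < M := by
    rw [hM]; push_cast
    have : (0 : ℝ) ≤ M₀ := Nat.cast_nonneg _
    linarith
  obtain ⟨C, hC, hb1⟩ := hK a b M ha (by omega)
  obtain ⟨I, hI⟩ : ∃ I : ℝ≥0∞, I = ∫⁻ x : EE (a + b), ENNReal.ofReal ((1 + ‖x‖) ^ (-(M : ℝ))) :=
    ⟨_, rfl⟩
  have hIf : I < ⊤ := by
    rw [hI]
    apply finite_integral_one_add_norm
    rw [finrank_euclideanSpace_fin]
    exact hM2
  refine ⟨Real.toNNReal (C * 4 ^ M * 3 ^ M) * I.toNNReal, ?_⟩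
  intro lam Lam t D hlam hlL hLam hL4 ht hD
  have hlam0 : 0 < lam := by linarith
  have hLam0 : 0 < Lam := by linarith
  rw [kf_symbol hJM a b lam Lam t hlam0]
  have hs1 : Real.sqrt lam ≤ 4 * lam := by
    rw [Real.sqrt_le_left (by positivity)]
    nlinarith
  have hs2 : Real.sqrt lam ≤ Lam := by
    rw [Real.sqrt_le_left hLam0.le]
    exact hlL
  have key : ∀ x ∈ {x : EE (a + b) | D ≤ ‖p2 a b x‖},
      ‖MK (mc a b (fun s => eta0 (s / (4 * lam))) (fun s => chi (s / Lam)) lam t) x‖ₑ ≤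
      ENNReal.ofReal (C * 4 ^ M * 3 ^ M * (lam ^ N)⁻¹) *
        ENNReal.ofReal ((1 + ‖x‖) ^ (-(M : ℝ))) := by
    intro x hx
    have hx' : D ≤ ‖p2 a b x‖ := hx
    rw [← ENNReal.ofReal_mul (by positivity), ← ofReal_norm]
    apply ENNReal.ofReal_le_ofReal
    refine (hb1 lam (4 * lam) Lam t _ _ x hlam hs1 hs2 (Or.inl fun s => rfl)
      (Or.inr fun s => rfl) ht).trans ?_
    rw [← hq]
    have e1 : ((1 + lam / (4 * lam) * ‖p1 a b x‖) ^ M)⁻¹ ≤ 1 := by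
      apply inv_le_one_of_one_le₀
      apply one_le_pow₀
      have : 0 ≤ lam / (4 * lam) * ‖p1 a b x‖ := by positivity
      linarith
    have e2 : ((1 + lam * |‖x‖ - t|) ^ M)⁻¹ ≤ 3 ^ M * (1 + ‖x‖) ^ (-(M : ℝ)) := by
      rw [Real.rpow_neg (by positivity), Real.rpow_natCast, ← div_eq_mul_inv, ← div_pow,
        ← inv_pow]
      apply pow_le_pow_left₀ (by positivity)
      rw [inv_eq_one_div, div_le_div_iff₀ (by positivity) (by positivity)]
      have h1 : ‖x‖ ≤ |‖x‖ - t| + 2 := by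
        have := le_abs_self (‖x‖ - t)
        linarith [ht.2]
      have h2 : |‖x‖ - t| ≤ lam * |‖x‖ - t| := by
        have := abs_nonneg (‖x‖ - t)
        nlinarith
      linarith [abs_nonneg (‖x‖ - t)]
    have e3 : ((1 + lam / Lam * ‖p2 a b x‖) ^ M)⁻¹ ≤ 4 ^ M * lam ^ (-(η * M)) := by
      have h1 : lam ^ η / 4 ≤ 1 + lam / Lam * ‖p2 a b x‖ := by
        have h2 : lam ^ η / 4 ≤ lam / Lam * D := by
          rw [div_mul_eq_mul_div, div_le_div_iff₀ (by norm_num) hLam0]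
          linarith
        have h3 : lam / Lam * D ≤ lam / Lam * ‖p2 a b x‖ :=
          mul_le_mul_of_nonneg_left hx' (by positivity)
        linarith
      have h4 : 0 < lam ^ η := Real.rpow_pos_of_pos hlam0 _
      have h5 : 4 ^ M * lam ^ (-(η * M)) = ((lam ^ η / 4) ^ M)⁻¹ := by
        rw [Real.rpow_neg hlam0.le, Real.rpow_mul hlam0.le, Real.rpow_natCast, div_pow, inv_div,
          div_eq_mul_inv]
      rw [h5]
      apply inv_anti₀ (by positivity)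
      exact pow_le_pow_left₀ (by positivity) h1 M
    have e4 : lam ^ q * lam ^ (-(η * M)) ≤ (lam ^ N)⁻¹ := by
      rw [← Real.rpow_add hlam0, ← Real.rpow_natCast, ← Real.rpow_neg hlam0.le]
      apply Real.rpow_le_rpow_of_exponent_le hlam
      linarith
    have hlq : 0 ≤ lam ^ q := Real.rpow_nonneg hlam0.le _
    have hx0 : 0 ≤ (1 + ‖x‖) ^ (-(M : ℝ)) := Real.rpow_nonneg (by positivity) _
    calc C * lam ^ q * ((1 + lam * |‖x‖ - t|) ^ M)⁻¹ *
          ((1 + lam / (4 * lam) * ‖p1 a b x‖) ^ M)⁻¹ * ((1 + lam / Lam * ‖p2 a b x‖) ^ M)⁻¹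
        ≤ C * lam ^ q * (3 ^ M * (1 + ‖x‖) ^ (-(M : ℝ))) * 1 * (4 ^ M * lam ^ (-(η * M))) := by
          gcongr
      _ = C * 4 ^ M * 3 ^ M * (1 + ‖x‖) ^ (-(M : ℝ)) * (lam ^ q * lam ^ (-(η * M))) := by ring
      _ ≤ C * 4 ^ M * 3 ^ M * (1 + ‖x‖) ^ (-(M : ℝ)) * (lam ^ N)⁻¹ := by gcongr
      _ = _ := by ring
  have hmeas : MeasurableSet {x : EE (a + b) | D ≤ ‖p2 a b x‖} := by
    obtain ⟨-, -, -, -, -, -, hc, -⟩ := hJM a b
    exact measurableSet_le measurable_const hc.norm.measurable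
  calc _ ≤ ∫⁻ x in {x : EE (a + b) | D ≤ ‖p2 a b x‖},
        ENNReal.ofReal (C * 4 ^ M * 3 ^ M * (lam ^ N)⁻¹) *
        ENNReal.ofReal ((1 + ‖x‖) ^ (-(M : ℝ))) := setLIntegral_mono' hmeas key
    _ ≤ ∫⁻ x : EE (a + b), ENNReal.ofReal (C * 4 ^ M * 3 ^ M * (lam ^ N)⁻¹) *
        ENNReal.ofReal ((1 + ‖x‖) ^ (-(M : ℝ))) := setLIntegral_le_lintegral _ _
    _ = ENNReal.ofReal (C * 4 ^ M * 3 ^ M * (lam ^ N)⁻¹) * I := by
        rw [lintegral_const_mul' _ _ ENNReal.ofReal_ne_top, ← hI]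
    _ = _ := by
        rw [ENNReal.ofReal_mul (by positivity), ENNReal.coe_mul, ENNReal.coe_toNNReal hIf.ne]
        show ENNReal.ofReal _ * _ * I = ENNReal.ofReal _ * I * _
        ring

end Pool.Agent.H73.BR
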