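import Pool.Agent.H83.AR.Targets3

/-!
WPm: the weighted estimate on `ℝ^(a+1)`.
-/

set_option autoImplicit false

namespace Pool.Agent.H73.BR

open MeasureTheory Set FourierTransform
open Pool.Agent.H83.AR Pool.Agent.H93.AR Pool.Agent.H83.LS Pool.Agent.H54.LS Pool.Agent.H14.LS
open scoped ENNReal NNReal

/-- the dyadic decomposition of the weight (as in PC1 of helper57) -/
theorem wb (β D ε : ℝ) (hβ : 0 ≤ β) (hβ1 : β < 1) (hD : 0 < D) (hε : 0 < ε) (L : ℕ)
    (hL : D / 16 / 2 ^ L < ε) (s : ℝ) (hs : 0 ≤ s) :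
    ENNReal.ofReal ((s + ε) ^ (-β)) ≤ ENNReal.ofReal (16 * D ^ (-β)) +
      ∑ k ∈ (Finset.range L).filter (fun k => ε ≤ D / 16 / 2 ^ k),
        (if s ≤ D / 16 / 2 ^ k then ENNReal.ofReal ((2 / (D / 16 / 2 ^ k)) ^ β) else 0) := by
  classical
  by_cases h : D / 16 ≤ s + ε
  · refine le_trans (ENNReal.ofReal_le_ofReal ?_) le_self_add
    calc (s + ε) ^ (-β) ≤ (D / 16) ^ (-β) :=
          Real.rpow_le_rpow_of_nonpos (by positivity) h (by linarith)
      _ = 16 ^ β * D ^ (-β) := by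
          rw [Real.div_rpow hD.le (by norm_num), Real.rpow_neg (by norm_num : (0:ℝ) ≤ 16), div_inv_eq_mul]
          ring
      _ ≤ 16 ^ (1 : ℝ) * D ^ (-β) := by
          gcongr
          norm_num
      _ = 16 * D ^ (-β) := by rw [Real.rpow_one]
  · push Not at h
    have hex : ∃ k : ℕ, D / 16 / 2 ^ (k + 1) ≤ s + ε := by
      refine ⟨L, ?_⟩
      have h1 : D / 16 / 2 ^ (L + 1) ≤ D / 16 / 2 ^ L := by
        apply div_le_div_of_nonneg_left (by positivity) (by positivity)
        exact pow_le_pow_right₀ (by norm_num) (by omega)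
      linarith
    set k := Nat.find hex with hk
    have hk1 : D / 16 / 2 ^ (k + 1) ≤ s + ε := Nat.find_spec hex
    have hk2 : s + ε < D / 16 / 2 ^ k := by
      rcases Nat.eq_zero_or_pos k with h0 | h0
      · rw [h0, pow_zero, div_one]; exact h
      · have := Nat.find_min hex (m := k - 1) (by omega)
        rw [not_le] at this
        rwa [show k - 1 + 1 = k by omega] at this
    have hkL : k < L := by
      by_contra hn
      push Not at hn
      have h1 : D / 16 / 2 ^ k ≤ D / 16 / 2 ^ L := by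
        apply div_le_div_of_nonneg_left (by positivity) (by positivity)
        exact pow_le_pow_right₀ (by norm_num) hn
      linarith
    have hmem : k ∈ (Finset.range L).filter (fun k => ε ≤ D / 16 / 2 ^ k) := by
      rw [Finset.mem_filter, Finset.mem_range]
      exact ⟨hkL, by linarith⟩
    refine le_trans ?_ le_add_self
    refine le_trans ?_ (Finset.single_le_sum (f := fun k =>
      if s ≤ D / 16 / 2 ^ k then ENNReal.ofReal ((2 / (D / 16 / 2 ^ k)) ^ β) else 0)
      (fun _ _ => bot_le) hmem)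
    rw [if_pos (by linarith)]
    apply ENNReal.ofReal_le_ofReal
    calc (s + ε) ^ (-β) ≤ (D / 16 / 2 ^ (k + 1)) ^ (-β) :=
          Real.rpow_le_rpow_of_nonpos (by positivity) hk1 (by linarith)
      _ = (2 / (D / 16 / 2 ^ k)) ^ β := by
          rw [Real.rpow_neg (by positivity), ← Real.inv_rpow (by positivity)]
          congr 1
          rw [pow_succ]
          field_simp

/-- summation over the dyadic scales -/
theorem wsum {E : Type} [MeasurableSpace E] (μ : Measure E) [SFinite μ] (f : ℝ → E → ℝ≥0∞)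
    (hf : Measurable (Function.uncurry f)) (s : E → ℝ) (hs : Measurable s) (hs0 : ∀ x, 0 ≤ s x)
    (β D ε : ℝ) (hβ : 0 ≤ β) (hβ1 : β < 1) (hD : 0 < D) (hε : 0 < ε) (L : ℕ)
    (hL : D / 16 / 2 ^ L < ε) (U V : ℝ≥0∞)
    (hU : ∫⁻ t in Icc (1 : ℝ) 2, ∫⁻ x, f t x ∂μ ≤ U)
    (hV : ∀ δ : ℝ, ε ≤ δ → ENNReal.ofReal ((2 / δ) ^ β) *
      ∫⁻ t in Icc (1 : ℝ) 2, ∫⁻ x in {x | s x ≤ δ}, f t x ∂μ ≤ V) :
    ∫⁻ t in Icc (1 : ℝ) 2, ∫⁻ x, f t x * ENNReal.ofReal ((s x + ε) ^ (-β)) ∂μ ≤
      ENNReal.ofReal (16 * D ^ (-β)) * U + L * V := by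
  classical
  have hf1 : ∀ t, Measurable (f t) := fun t => hf.comp (measurable_const.prodMk measurable_id)
  obtain ⟨T, hT⟩ : ∃ T : Finset ℕ, T = (Finset.range L).filter (fun k => ε ≤ D / 16 / 2 ^ k) :=
    ⟨_, rfl⟩
  have hTc : (T.card : ℝ≥0∞) ≤ L := by
    have : T.card ≤ L := by
      rw [hT]
      calc _ ≤ (Finset.range L).card := Finset.card_filter_le _ _
        _ = L := Finset.card_range L
    exact_mod_cast this
  obtain ⟨S, hS⟩ : ∃ S : ℕ → Set E, S = fun k => {x | s x ≤ D / 16 / 2 ^ k} := ⟨_, rfl⟩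
  have hSm : ∀ k, MeasurableSet (S k) := by
    intro k; rw [hS]; exact measurableSet_le hs measurable_const
  have split : ∀ t, ∫⁻ x, f t x * ENNReal.ofReal ((s x + ε) ^ (-β)) ∂μ ≤
      ENNReal.ofReal (16 * D ^ (-β)) * (∫⁻ x, f t x ∂μ) +
        ∑ k ∈ T, ENNReal.ofReal ((2 / (D / 16 / 2 ^ k)) ^ β) * ∫⁻ x in S k, f t x ∂μ := by
    intro t
    have h1 : ∀ x, f t x * ENNReal.ofReal ((s x + ε) ^ (-β)) ≤
        ENNReal.ofReal (16 * D ^ (-β)) * f t x +
          ∑ k ∈ T, ENNReal.ofReal ((2 / (D / 16 / 2 ^ k)) ^ β) * (S k).indicator (f t) x := by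
      intro x
      have h2 := wb β D ε hβ hβ1 hD hε L hL (s x) (hs0 x)
      rw [← hT] at h2
      refine (mul_le_mul_right h2 (f t x)).trans (le_of_eq ?_)
      rw [mul_add, Finset.mul_sum, mul_comm]
      congr 1
      apply Finset.sum_congr rfl
      intro k _
      by_cases h3 : s x ≤ D / 16 / 2 ^ k
      · rw [if_pos h3, indicator_of_mem (show x ∈ S k by rw [hS]; exact h3), mul_comm]
      · rw [if_neg h3, indicator_of_notMem (show x ∉ S k by rw [hS]; exact h3), mul_zero,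
          mul_zero]
    refine (lintegral_mono h1).trans (le_of_eq ?_)
    rw [lintegral_add_left ((hf1 t).const_mul _), lintegral_const_mul _ (hf1 t),
      lintegral_finsetSum _ (fun k _ => ((hf1 t).indicator (hSm k)).const_mul _)]
    congr 1
    apply Finset.sum_congr rfl
    intro k _
    rw [lintegral_const_mul _ ((hf1 t).indicator (hSm k)), lintegral_indicator (hSm k)]
  have hm1 : Measurable (fun t => ∫⁻ x, f t x ∂μ) := hf.lintegral_prod_right
  have hm2 : ∀ k, Measurable (fun t => ∫⁻ x in S k, f t x ∂μ) := fun k => hf.lintegral_prod_right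
  calc _ ≤ ∫⁻ t in Icc (1 : ℝ) 2, (ENNReal.ofReal (16 * D ^ (-β)) * (∫⁻ x, f t x ∂μ) +
        ∑ k ∈ T, ENNReal.ofReal ((2 / (D / 16 / 2 ^ k)) ^ β) * ∫⁻ x in S k, f t x ∂μ) :=
          lintegral_mono split
    _ = ENNReal.ofReal (16 * D ^ (-β)) * (∫⁻ t in Icc (1 : ℝ) 2, ∫⁻ x, f t x ∂μ) +
        ∑ k ∈ T, ENNReal.ofReal ((2 / (D / 16 / 2 ^ k)) ^ β) *
          ∫⁻ t in Icc (1 : ℝ) 2, ∫⁻ x in S k, f t x ∂μ := by
          rw [lintegral_add_left (hm1.const_mul _), lintegral_const_mul _ hm1,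
            lintegral_finsetSum _ (fun k _ => (hm2 k).const_mul _)]
          congr 1
          apply Finset.sum_congr rfl
          intro k _
          rw [lintegral_const_mul _ (hm2 k)]
    _ ≤ ENNReal.ofReal (16 * D ^ (-β)) * U + ∑ k ∈ T, V := by
          refine add_le_add (mul_le_mul_right hU _) (Finset.sum_le_sum fun k hk => ?_)
          rw [hT, Finset.mem_filter] at hk
          have := hV _ hk.2
          rw [hS]
          exact this
    _ ≤ _ := by
          rw [Finset.sum_const, nsmul_eq_mul]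
          exact add_le_add le_rfl (mul_le_mul_left hTc _)

theorem pf_wpm (hAM : T_AM) (hS1 : T_S1) : T_WPm := by
  intro a p β η ha hp hβ hβ1 hap hη
  obtain ⟨C, hC⟩ := hS1 a p β η ha hp hβ hap hη
  have hlog2 : 0 < Real.log 2 := Real.log_pos (by norm_num)
  obtain ⟨CL, hCL⟩ : ∃ CL : ℝ, CL = 2 + (1 + η) / (η * Real.log 2) := ⟨_, rfl⟩
  have hCL0 : 0 ≤ CL := by rw [hCL]; positivity
  refine ⟨Real.toNNReal (16 + CL * 2) * C, ?_⟩
  intro lam Lam L A D h hlam hLam hLl hL hLD hDl hBI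
  obtain ⟨hhm, hhi, hhb⟩ := hBI
  have hA : 0 ≤ A := (norm_nonneg _).trans (hhb 0)
  have hA' : 0 ≤ A ^ (p - 2) := Real.rpow_nonneg hA _
  have hlam0 : 0 < lam := by linarith
  have hLam0 : 0 < Lam := by linarith
  have hLD0 : 0 < Lam * D := by linarith
  have hD : 0 < D := pos_of_mul_pos_right hLD0 hLam0.le
  have ha1 : 1 ≤ a := by omega
  obtain ⟨am1, -, -, am4, -⟩ := hAM a L ha1 hL
  have hgi : Integrable (AL L (AL L h)) := am4 _ (am1 _ hhm) (am4 _ hhm hhi)
  obtain ⟨g, hg⟩ : ∃ g : EE (a + 1) → ℂ, g = AL L (AL L h) := ⟨_, rfl⟩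
  rw [← hg] at hgi
  obtain ⟨X, hX⟩ : ∃ X : ℝ≥0∞, X = ∫⁻ x, ‖h x‖ₑ ^ 2 := ⟨_, rfl⟩
  have hmS : Measurable fun q : ℝ × EE (a + 1) => mS a lam Lam q.1 q.2 := by
    unfold mS
    apply Measurable.mul (mT_meas lam)
    apply Complex.measurable_ofReal.comp
    have h1 : Continuous chis := chis_smooth.continuous
    exact h1.measurable.comp (by fun_prop)
  have hfm : Measurable (Function.uncurry fun (t : ℝ) (x : EE (a + 1)) =>
      ‖MM (mS a lam Lam t) g x‖ₑ ^ p) := by
    have := MM_meas (m := fun t => mS a lam Lam t) hmS (fourier_meas' hgi)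
    exact this.enorm.pow_const p
  obtain ⟨h1, h2⟩ := hC lam Lam L A h hlam hLam hLl hL ⟨hhm, hhi, hhb⟩
  rw [← hg, ← hX] at h1
  -- the number of dyadic scales
  obtain ⟨N, hN⟩ : ∃ N : ℕ, N = ⌈Real.logb 2 (lam ^ (1 + η))⌉₊ + 1 := ⟨_, rfl⟩
  have hlp : 0 < lam ^ (1 + η) := Real.rpow_pos_of_pos hlam0 _
  have hlp1 : 1 ≤ lam ^ (1 + η) := Real.one_le_rpow hlam (by linarith)
  have hN1 : D / 16 / 2 ^ N < 1 / Lam := by
    have e1 : lam ^ (1 + η) ≤ 2 ^ ⌈Real.logb 2 (lam ^ (1 + η))⌉₊ := by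
      have h2 : Real.logb 2 (lam ^ (1 + η)) ≤ ⌈Real.logb 2 (lam ^ (1 + η))⌉₊ := Nat.le_ceil _
      calc lam ^ (1 + η) = 2 ^ Real.logb 2 (lam ^ (1 + η)) :=
            (Real.rpow_logb (by norm_num) (by norm_num) hlp).symm
        _ ≤ 2 ^ ((⌈Real.logb 2 (lam ^ (1 + η))⌉₊ : ℕ) : ℝ) :=
            Real.rpow_le_rpow_of_exponent_le (by norm_num) h2
        _ = _ := Real.rpow_natCast _ _
    have e2 : lam ^ (1 + η) < 2 ^ N := by
      rw [hN, pow_succ]; nlinarith
    have e3 : D * Lam ≤ 16 * lam ^ (1 + η) := by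
      have e4 : D * Lam * lam ≤ lam ^ η * (16 * lam ^ 2) := by
        calc D * Lam * lam = D * lam * Lam := by ring
          _ ≤ lam ^ η * Lam * Lam := mul_le_mul_of_nonneg_right hDl hLam0.le
          _ = lam ^ η * (Lam * Lam) := by ring
          _ ≤ lam ^ η * (16 * lam ^ 2) := by
              apply mul_le_mul_of_nonneg_left _ (Real.rpow_nonneg hlam0.le _)
              nlinarith
      have e5 : lam ^ (1 + η) = lam * lam ^ η := by
        rw [Real.rpow_add hlam0, Real.rpow_one]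
      rw [e5]
      have e6 : lam * (D * Lam) ≤ lam * (16 * (lam * lam ^ η)) := by nlinarith
      exact le_of_mul_le_mul_left e6 hlam0
    rw [div_div, div_lt_div_iff₀ (by positivity) hLam0, one_mul]
    nlinarith
  have hN2 : (N : ℝ) ≤ CL * lam ^ η := by
    have h0 : 0 ≤ Real.logb 2 (lam ^ (1 + η)) := Real.logb_nonneg (by norm_num) hlp1
    have e1 : (N : ℝ) ≤ Real.logb 2 (lam ^ (1 + η)) + 2 := by
      rw [hN]; push_cast
      linarith [Nat.ceil_lt_add_one h0]
    have e2 : Real.logb 2 (lam ^ (1 + η)) = (1 + η) * (Real.log lam / Real.log 2) := by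
      rw [Real.logb, Real.log_rpow hlam0]; ring
    have e3 : Real.log lam ≤ lam ^ η / η := Real.log_le_rpow_div hlam0.le hη
    have e4 : (1 + η) * (Real.log lam / Real.log 2) ≤ (1 + η) / (η * Real.log 2) * lam ^ η := by
      have e5 : Real.log lam / Real.log 2 ≤ lam ^ η / η / Real.log 2 :=
        div_le_div_of_nonneg_right e3 hlog2.le
      have e6 := mul_le_mul_of_nonneg_left e5 (by linarith : (0 : ℝ) ≤ 1 + η)
      refine e6.trans (le_of_eq ?_)
      field_simp
    have h5 : 1 ≤ lam ^ η := Real.one_le_rpow hlam hη.le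
    rw [hCL, add_mul]
    linarith
  have hlη : 0 < lam ^ η := Real.rpow_pos_of_pos hlam0 _
  have hlη1 : 1 ≤ lam ^ η := Real.one_le_rpow hlam hη.le
  have hDβ : 0 < D ^ (-β) := Real.rpow_pos_of_pos hD _
  have hV : ∀ δ : ℝ, 1 / Lam ≤ δ → ENNReal.ofReal ((2 / δ) ^ β) *
      ∫⁻ t in Icc (1 : ℝ) 2, ∫⁻ x in {x : EE (a + 1) | |x (Fin.last a)| ≤ δ},
        ‖MM (mS a lam Lam t) g x‖ₑ ^ p ≤
      ENNReal.ofReal (2 * (L ^ 2 * (lam ^ η * lam ^ η) * D ^ (-β) * A ^ (p - 2))) * (C * X) := by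
    intro δ hδ
    have hδ0 : 0 < δ := lt_of_lt_of_le (by positivity) hδ
    have h3 := h2 δ hδ
    rw [← hg, ← hX] at h3
    calc _ ≤ ENNReal.ofReal ((2 / δ) ^ β) * (C * ENNReal.ofReal (L ^ 2 * lam ^ η *
          (δ * lam / Lam) ^ β * A ^ (p - 2)) * X) := mul_le_mul_right h3 _
      _ = ENNReal.ofReal ((2 / δ) ^ β * (L ^ 2 * lam ^ η *
          (δ * lam / Lam) ^ β * A ^ (p - 2))) * (C * X) := by
          rw [ENNReal.ofReal_mul (p := (2 / δ) ^ β) (by positivity)]
          ring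
      _ ≤ _ := by
          refine mul_le_mul_left (ENNReal.ofReal_le_ofReal ?_) _
          have e1 : (2 / δ) ^ β * (δ * lam / Lam) ^ β ≤ 2 * (lam ^ η * D ^ (-β)) := by
            rw [← Real.mul_rpow (by positivity) (by positivity)]
            have e2 : 2 / δ * (δ * lam / Lam) = 2 * (lam / Lam) := by field_simp
            have e3 : lam / Lam ≤ lam ^ η / D := by
              rw [div_le_div_iff₀ hLam0 hD]; linarith
            rw [e2, Real.mul_rpow (by norm_num) (by positivity)]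
            have e4 : (2 : ℝ) ^ β ≤ 2 := by
              calc (2 : ℝ) ^ β ≤ 2 ^ (1 : ℝ) :=
                    Real.rpow_le_rpow_of_exponent_le (by norm_num) hβ1.le
                _ = 2 := Real.rpow_one 2
            have e5 : (lam / Lam) ^ β ≤ lam ^ η * D ^ (-β) := by
              calc (lam / Lam) ^ β ≤ (lam ^ η / D) ^ β :=
                    Real.rpow_le_rpow (by positivity) e3 hβ
                _ = (lam ^ η) ^ β * D ^ (-β) := by
                    rw [Real.div_rpow hlη.le hD.le, Real.rpow_neg hD.le, div_eq_mul_inv]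
                _ ≤ lam ^ η * D ^ (-β) := by
                    apply mul_le_mul_of_nonneg_right _ hDβ.le
                    calc (lam ^ η) ^ β ≤ (lam ^ η) ^ (1 : ℝ) :=
                          Real.rpow_le_rpow_of_exponent_le hlη1 hβ1.le
                      _ = lam ^ η := Real.rpow_one _
            exact mul_le_mul e4 e5 (by positivity) (by norm_num)
          calc (2 / δ) ^ β * (L ^ 2 * lam ^ η * (δ * lam / Lam) ^ β * A ^ (p - 2))
              = L ^ 2 * lam ^ η * A ^ (p - 2) * ((2 / δ) ^ β * (δ * lam / Lam) ^ β) := by ring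
            _ ≤ L ^ 2 * lam ^ η * A ^ (p - 2) * (2 * (lam ^ η * D ^ (-β))) :=
                mul_le_mul_of_nonneg_left e1 (by positivity)
            _ = _ := by ring
  have key := wsum (volume : Measure (EE (a + 1))) (fun t x => ‖MM (mS a lam Lam t) g x‖ₑ ^ p) hfm
    (fun x => |x (Fin.last a)|) (by fun_prop) (fun x => abs_nonneg _) β D (1 / Lam) hβ hβ1 hD
    (by positivity) N hN1 _ _ h1 hV
  rw [← hg, ← hX]
  refine key.trans ?_
  have hl3 : lam ^ (3 * η) = lam ^ η * lam ^ η * lam ^ η := by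
    rw [← Real.rpow_add hlam0, ← Real.rpow_add hlam0]; congr 1; ring
  calc _ = ENNReal.ofReal (16 * D ^ (-β) * (L ^ 2 * lam ^ η * A ^ (p - 2)) +
        N * (2 * (L ^ 2 * (lam ^ η * lam ^ η) * D ^ (-β) * A ^ (p - 2)))) * (C * X) := by
        rw [ENNReal.ofReal_add (by positivity) (by positivity),
          ENNReal.ofReal_mul (p := 16 * D ^ (-β)) (by positivity),
          ENNReal.ofReal_mul (p := (N : ℝ)) (by positivity), ENNReal.ofReal_natCast]
        ring
    _ ≤ ENNReal.ofReal ((16 + CL * 2) * (L ^ 2 * lam ^ (3 * η) * D ^ (-β) * A ^ (p - 2))) *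
        (C * X) := by
        refine mul_le_mul_left (ENNReal.ofReal_le_ofReal ?_) _
        have e1 : lam ^ η ≤ lam ^ (3 * η) :=
          Real.rpow_le_rpow_of_exponent_le hlam (by linarith)
        have e2 : (N : ℝ) * (lam ^ η * lam ^ η) ≤ CL * lam ^ (3 * η) := by
          rw [hl3]
          have := mul_le_mul_of_nonneg_right hN2 (by positivity : 0 ≤ lam ^ η * lam ^ η)
          linarith
        have e3 : 0 ≤ L ^ 2 * D ^ (-β) * A ^ (p - 2) := by positivity
        have e4 := mul_le_mul_of_nonneg_left e1 e3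
        have e5 := mul_le_mul_of_nonneg_left e2 e3
        nlinarith
    _ = _ := by
        rw [ENNReal.ofReal_mul (p := 16 + CL * 2) (by positivity), ENNReal.coe_mul]
        show ENNReal.ofReal (16 + CL * 2) * _ * _ = ENNReal.ofReal (16 + CL * 2) * _ * _ * _
        ring

end Pool.Agent.H73.BR
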